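import Pool.Agent.Helper929.Pfaffian

set_option autoImplicit false

namespace Pool.Agent.J6H11.ASC

open Matrix Pool.Agent.Helper929

variable {R : Type*} [CommRing R]

/-- The block of size `N` starting at index `s` of an infinite array. -/
def blk (B : ℕ → ℕ → R) (N s : ℕ) : Matrix (Fin N) (Fin N) R :=
  Matrix.of fun i j => B (s + i) (s + j)

omit [CommRing R] in
theorem blk_sub (B : ℕ → ℕ → R) (N s : ℕ) :
    (blk B (N + 2) s).submatrix (fun k => ((0 : Fin (N + 1)).succAbove k).succ)
      (fun k => ((0 : Fin (N + 1)).succAbove k).succ) = blk B N (s + 2) := by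
  ext i j
  simp only [blk, Matrix.submatrix_apply, Matrix.of_apply, Fin.succAbove_zero, Fin.val_succ]
  congr 1 <;> omega

theorem pf_band1 (B : ℕ → ℕ → R) (hB : ∀ i j, i + 1 < j → B i j = 0) :
    ∀ (n s : ℕ), pf (2 * n) (blk B (2 * n) s) =
      ∏ k ∈ Finset.range n, B (s + 2 * k) (s + 2 * k + 1) := by
  intro n
  induction n with
  | zero => intro s; simp [pf]
  | succ n ih =>
    intro s
    have h2 : pf (2 * (n + 1)) (blk B (2 * (n + 1)) s) = ∑ j : Fin (2 * n + 1), (-1) ^ (j : ℕ) *
      (blk B (2 * n + 2) s) 0 j.succ *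
      pf (2 * n) ((blk B (2 * n + 2) s).submatrix (fun k => (j.succAbove k).succ)
        (fun k => (j.succAbove k).succ)) := rfl
    rw [h2, Fin.sum_univ_succ, Finset.sum_eq_zero, blk_sub, ih, Finset.prod_range_succ']
    · simp only [blk, Matrix.of_apply, Fin.val_zero, pow_zero, one_mul, add_zero, Fin.val_succ,
        zero_add, mul_zero]
      rw [mul_comm]
      congr 1
      apply Finset.prod_congr rfl
      intro k _
      congr 1 <;> ring
    · intro j _
      have : (blk B (2 * n + 2) s) 0 j.succ.succ = 0 := by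
        simp only [blk, Matrix.of_apply]
        apply hB
        simp
      rw [this]
      ring

theorem pf_band2_step (B : ℕ → ℕ → R) (hB : ∀ i j, i + 2 < j → B i j = 0) (n s : ℕ) :
    pf (2 * (n + 2)) (blk B (2 * (n + 2)) s) =
      B s (s + 1) * pf (2 * (n + 1)) (blk B (2 * (n + 1)) (s + 2)) -
      B s (s + 2) * B (s + 1) (s + 3) * pf (2 * n) (blk B (2 * n) (s + 4)) := by
  have h2 : pf (2 * (n + 2)) (blk B (2 * (n + 2)) s) =
      ∑ j : Fin (2 * n + 3), (-1) ^ (j : ℕ) *
      (blk B (2 * n + 2 + 2) s) 0 j.succ *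
      pf (2 * n + 2) ((blk B (2 * n + 2 + 2) s).submatrix (fun k => (j.succAbove k).succ)
        (fun k => (j.succAbove k).succ)) := rfl
  rw [h2, Fin.sum_univ_succ, Fin.sum_univ_succ, Finset.sum_eq_zero, blk_sub]
  · have h3 : pf (2 * n + 2) ((blk B (2 * n + 2 + 2) s).submatrix
        (fun k => (((0 : Fin (2 * n + 2)).succ).succAbove k).succ)
        (fun k => (((0 : Fin (2 * n + 2)).succ).succAbove k).succ)) =
        B (s + 1) (s + 3) * pf (2 * n) (blk B (2 * n) (s + 4)) := by
      simp only [pf]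
      rw [Fin.sum_univ_succ, Finset.sum_eq_zero]
      · have h4 : (((blk B (2 * n + 2 + 2) s).submatrix
            (fun k => (((0 : Fin (2 * n + 2)).succ).succAbove k).succ)
            (fun k => (((0 : Fin (2 * n + 2)).succ).succAbove k).succ)).submatrix
            (fun k => ((0 : Fin (2 * n + 1)).succAbove k).succ)
            (fun k => ((0 : Fin (2 * n + 1)).succAbove k).succ)) = blk B (2 * n) (s + 4) := by
          ext i j
          simp only [blk, Matrix.submatrix_apply, Matrix.of_apply, Fin.succAbove_zero,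
            Fin.succ_succAbove_succ, Fin.val_succ]
          congr 1 <;> omega
        have h5 : ((blk B (2 * n + 2 + 2) s).submatrix
            (fun k => (((0 : Fin (2 * n + 2)).succ).succAbove k).succ)
            (fun k => (((0 : Fin (2 * n + 2)).succ).succAbove k).succ)) 0 (0 : Fin (2 * n + 1)).succ =
            B (s + 1) (s + 3) := by
          simp only [blk, Matrix.submatrix_apply, Matrix.of_apply, Fin.succ_succAbove_succ,
            Fin.succAbove_zero, Fin.val_succ, Fin.val_zero, Fin.succ_succAbove_zero]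
        rw [h4, h5]
        simp
      · intro j _
        have : ((blk B (2 * n + 2 + 2) s).submatrix
            (fun k => (((0 : Fin (2 * n + 2)).succ).succAbove k).succ)
            (fun k => (((0 : Fin (2 * n + 2)).succ).succAbove k).succ)) 0 j.succ.succ = 0 := by
          simp only [blk, Matrix.submatrix_apply, Matrix.of_apply]
          apply hB
          simp
          omega
        rw [this]
        ring
    have h5 : pf (2 * n + 2) (blk B (2 * n + 2) (s + 2)) =
      pf (2 * (n + 1)) (blk B (2 * (n + 1)) (s + 2)) := rfl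
    have h6 : (blk B (2 * n + 2 + 2) s) 0 (0 : Fin (2 * n + 3)).succ = B s (s + 1) := by
      simp only [blk, Matrix.of_apply, Fin.val_succ, Fin.val_zero, add_zero, zero_add]
    have h7 : (blk B (2 * n + 2 + 2) s) 0 (0 : Fin (2 * n + 2)).succ.succ = B s (s + 2) := by
      simp only [blk, Matrix.of_apply, Fin.val_succ, Fin.val_zero, add_zero, zero_add]
    rw [h3, h6, h7, h5]
    simp only [Fin.val_succ, Fin.val_zero, pow_zero, zero_add, pow_one]
    ring
  · intro j _
    have : (blk B (2 * n + 2 + 2) s) 0 j.succ.succ.succ = 0 := by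
      simp only [blk, Matrix.of_apply]
      apply hB
      simp
    rw [this]
    ring

theorem pf_band2_one (B : ℕ → ℕ → R) (s : ℕ) :
    pf (2 * 1) (blk B (2 * 1) s) = B s (s + 1) := by
  simp [pf, blk]

/-- Continuants. -/
def cont (α γ : ℕ → R) : ℕ → ℕ → R
  | 0, _ => 1
  | 1, s => α s
  | (n + 2), s => α s * cont α γ (n + 1) (s + 1) - γ s * cont α γ n (s + 2)

theorem cont_rev (α γ : ℕ → R) : ∀ (n s : ℕ), cont α γ (n + 2) s =
    α (s + n + 1) * cont α γ (n + 1) s - γ (s + n) * cont α γ n s
  | 0, s => by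
    simp [cont]; ring
  | 1, s => by
    simp [cont]
    have h1 : s + 1 + 1 = s + 2 := rfl
    rw [h1]; ring
  | (n + 2), s => by
    have h1 := cont_rev α γ (n + 1) (s + 1)
    have h2 := cont_rev α γ n (s + 2)
    have e1 : cont α γ (n + 2 + 2) s =
      α s * cont α γ (n + 1 + 2) (s + 1) - γ s * cont α γ (n + 2) (s + 2) := by
      conv_lhs => rw [cont]
    have e2 : cont α γ (n + 2 + 1) s =
      α s * cont α γ (n + 1 + 1) (s + 1) - γ s * cont α γ (n + 1) (s + 2) := by
      conv_lhs => rw [cont]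
    have e3 : cont α γ (n + 2) s =
      α s * cont α γ (n + 1) (s + 1) - γ s * cont α γ n (s + 2) := by
      conv_lhs => rw [cont]
    rw [e1, e2, e3, h1, h2]
    have i1 : s + 1 + (n + 1) + 1 = s + (n + 2) + 1 := by ring
    have i2 : s + 2 + n + 1 = s + (n + 2) + 1 := by ring
    have i3 : s + 1 + (n + 1) = s + (n + 2) := by ring
    have i4 : s + 2 + n = s + (n + 2) := by ring
    rw [i1, i2, i3, i4]
    ring

theorem pf_eq_cont (B : ℕ → ℕ → R) (hB : ∀ i j, i + 2 < j → B i j = 0) :
    ∀ (n s : ℕ), pf (2 * n) (blk B (2 * n) (2 * s)) =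
      cont (fun m => B (2 * m) (2 * m + 1))
        (fun m => B (2 * m) (2 * m + 2) * B (2 * m + 1) (2 * m + 3)) n s
  | 0, s => by simp [pf, cont]
  | 1, s => by rw [pf_band2_one]; simp [cont]
  | (n + 2), s => by
    rw [pf_band2_step B hB, cont]
    have h1 := pf_eq_cont B hB (n + 1) (s + 1)
    have h2 := pf_eq_cont B hB n (s + 2)
    have i1 : 2 * (s + 1) = 2 * s + 2 := by ring
    have i2 : 2 * (s + 2) = 2 * s + 4 := by ring
    rw [i1] at h1
    rw [i2] at h2
    rw [h1, h2]

/-- Two-term recurrence from the bottom right corner. -/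
theorem pf_band2_rec (B : ℕ → ℕ → R) (hB : ∀ i j, i + 2 < j → B i j = 0) (n : ℕ) :
    pf (2 * (n + 2)) (blk B (2 * (n + 2)) 0) =
      B (2 * (n + 1)) (2 * (n + 1) + 1) * pf (2 * (n + 1)) (blk B (2 * (n + 1)) 0) -
      B (2 * n) (2 * n + 2) * B (2 * n + 1) (2 * n + 3) * pf (2 * n) (blk B (2 * n) 0) := by
  have h0 := pf_eq_cont B hB (n + 2) 0
  have h1 := pf_eq_cont B hB (n + 1) 0
  have h2 := pf_eq_cont B hB n 0
  rw [mul_zero] at h0 h1 h2
  rw [h0, h1, h2, cont_rev]
  simp only [zero_add]

end Pool.Agent.J6H11.ASC
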