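import Pool.Agent.J6H11.ASC.Mom

set_option autoImplicit false

namespace Pool.Agent.J6H11.ASC

open Polynomial Matrix Pool.Agent.Helper929

variable {K : Type*} [Field K]

/-- The first bilinear form. -/
noncomputable def b1 (a q : K) : K[X] →ₗ[K] K[X] →ₗ[K] K :=
  LinearMap.mk₂ K (fun f g => L a q (D q f * g - f * D q g))
    (by intro f f' g; rw [← map_add, map_add]; congr 1; ring)
    (by intro c f g; rw [← map_smul, map_smul, smul_mul_assoc, smul_mul_assoc, smul_sub])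
    (by intro f g g'; rw [← map_add, map_add]; congr 1; ring)
    (by intro c f g; rw [← map_smul, map_smul, mul_smul_comm, mul_smul_comm, smul_sub])

/-- The second bilinear form. -/
noncomputable def b2 (a q : K) : K[X] →ₗ[K] K[X] →ₗ[K] K :=
  LinearMap.mk₂ K (fun f g => L a q (X * (D q f * g - f * D q g)))
    (by intro f f' g; rw [← map_add, map_add]; congr 1; ring)
    (by
      intro c f g
      rw [← map_smul, map_smul, smul_mul_assoc, smul_mul_assoc, ← smul_sub, mul_smul_comm])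
    (by intro f g g'; rw [← map_add, map_add]; congr 1; ring)
    (by
      intro c f g
      rw [← map_smul, map_smul, mul_smul_comm, mul_smul_comm, ← smul_sub, mul_smul_comm])

theorem b1_apply (a q : K) (f g : K[X]) : b1 a q f g = L a q (D q f * g - f * D q g) := rfl
theorem b2_apply (a q : K) (f g : K[X]) : b2 a q f g = L a q (X * (D q f * g - f * D q g)) := rfl

theorem b1_X (a q : K) (i j : ℕ) : b1 a q (X ^ i) (X ^ j) = (q ^ i - q ^ j) * G a q (i + j - 1) := by
  rw [b1_apply, D_X, D_X, smul_mul_assoc, mul_smul_comm, map_sub, map_smul, map_smul, smul_eq_mul,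
    smul_eq_mul, ← pow_add, ← pow_add, L_X, L_X]
  rcases i with _ | i
  · rcases j with _ | j
    · simp
    · simp only [pow_zero, sub_self, zero_mul, zero_sub, zero_add, Nat.add_sub_cancel]
      ring
  · rcases j with _ | j
    · simp only [pow_zero, sub_self, zero_mul, sub_zero, Nat.add_sub_cancel, add_zero]
    · have h1 : i + 1 - 1 + (j + 1) = i + 1 + (j + 1) - 1 := by omega
      have h2 : i + 1 + (j + 1 - 1) = i + 1 + (j + 1) - 1 := by omega
      rw [h1, h2]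
      ring

theorem b2_X (a q : K) (i j : ℕ) : b2 a q (X ^ i) (X ^ j) = (q ^ i - q ^ j) * G a q (i + j) := by
  rw [b2_apply, D_X, D_X, smul_mul_assoc, mul_smul_comm, mul_sub, mul_smul_comm, mul_smul_comm,
    map_sub, map_smul, map_smul, smul_eq_mul, smul_eq_mul, ← pow_add, ← pow_add, ← pow_succ',
    ← pow_succ', L_X, L_X]
  rcases i with _ | i
  · rcases j with _ | j
    · simp
    · simp only [pow_zero, sub_self, zero_mul, zero_sub, zero_add, Nat.add_sub_cancel]
      ring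
  · rcases j with _ | j
    · simp only [pow_zero, sub_self, zero_mul, sub_zero, Nat.add_sub_cancel, add_zero]
    · have h1 : i + 1 - 1 + (j + 1) + 1 = i + 1 + (j + 1) := by omega
      have h2 : i + 1 + (j + 1 - 1) + 1 = i + 1 + (j + 1) := by omega
      rw [h1, h2]
      ring

theorem b1_skew (a q : K) (f g : K[X]) : b1 a q f g = - b1 a q g f := by
  rw [b1_apply, b1_apply, ← map_neg]
  congr 1
  ring

theorem b2_skew (a q : K) (f g : K[X]) : b2 a q f g = - b2 a q g f := by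
  rw [b2_apply, b2_apply, ← map_neg]
  congr 1
  ring

theorem b1_U (a : K) {q : K} (hq : ∀ m : ℕ, 0 < m → q ^ m ≠ 1) (m n : ℕ) (h : m ≤ n) :
    b1 a q (U a q m) (U a q (n + 1)) = if m = n then (1 - q ^ (n + 1)) * hn a q n else 0 := by
  rw [b1_apply, map_sub]
  have h1 : L a q (D q (U a q m) * U a q (n + 1)) = 0 := by
    rcases m with _ | m
    · rw [D_U_zero]; simp
    · rw [D_U_succ, mul_assoc, L_smul, orth a hq, if_neg (by omega), mul_zero]
  have h2 : L a q (U a q m * D q (U a q (n + 1))) = (q ^ (n + 1) - 1) *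
      (if m = n then hn a q n else 0) := by
    rw [D_U_succ, mul_left_comm, L_smul, orth a hq]
  rw [h1, h2]
  split_ifs <;> ring

theorem L_X_U (a : K) {q : K} (hq : ∀ m : ℕ, 0 < m → q ^ m ≠ 1) (m n : ℕ) (h : m ≤ n) :
    L a q (X * (U a q m * U a q n)) = if m = n then (1 + a) * q ^ n * hn a q n else
      if m + 1 = n then hn a q n else 0 := by
  rcases m with _ | m
  · have h1 : X * (U a q 0 * U a q n) = U a q 1 * U a q n + C (1 + a) * (U a q 0 * U a q n) := by
      rw [← mul_assoc, X_U_zero]; ring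
    rw [h1, map_add, L_smul, orth a hq, orth a hq]
    by_cases h0 : 0 = n
    · subst h0
      simp
    · rw [if_neg h0, if_neg h0]
      simp
  · have h1 : X * (U a q (m + 1) * U a q n) = U a q (m + 2) * U a q n +
        C ((1 + a) * q ^ (m + 1)) * (U a q (m + 1) * U a q n) -
        C (a * q ^ m * (1 - q ^ (m + 1))) * (U a q m * U a q n) := by
      rw [← mul_assoc, X_U_succ]; ring
    rw [h1, map_sub, map_add, L_smul, L_smul, orth a hq, orth a hq, orth a hq]
    have h3 : ¬ (m = n) := by omega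
    rw [if_neg h3]
    by_cases h0 : m + 1 = n
    · subst h0
      rw [if_pos rfl, if_pos rfl, if_neg (by omega)]
      ring
    · rw [if_neg h0, if_neg h0]
      by_cases h2 : m + 2 = n
      · rw [if_pos h2]
        ring
      · rw [if_neg h2]
        ring

theorem b2_U (a : K) {q : K} (hq : ∀ m : ℕ, 0 < m → q ^ m ≠ 1) (m n : ℕ) (h : m ≤ n) :
    b2 a q (U a q m) (U a q (n + 1)) = (1 - q ^ (n + 1)) *
      (if m = n then (1 + a) * q ^ n * hn a q n else if m + 1 = n then hn a q n else 0) := by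
  rw [b2_apply, mul_sub, map_sub]
  have h1 : L a q (X * (D q (U a q m) * U a q (n + 1))) = 0 := by
    rcases m with _ | m
    · rw [D_U_zero]; simp
    · rw [D_U_succ, mul_assoc, mul_left_comm, L_smul, L_X_U a hq _ _ (by omega),
        if_neg (by omega), if_neg (by omega), mul_zero]
  have h2 : L a q (X * (U a q m * D q (U a q (n + 1)))) = (q ^ (n + 1) - 1) *
      (if m = n then (1 + a) * q ^ n * hn a q n else if m + 1 = n then hn a q n else 0) := by
    rw [D_U_succ, mul_left_comm (U a q m), mul_left_comm X, L_smul, L_X_U a hq _ _ h]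
  rw [h1, h2]
  ring

theorem bilin_expand (b : K[X] →ₗ[K] K[X] →ₗ[K] K) (N : ℕ) (f g : K[X]) (hf : f.natDegree < N)
    (hg : g.natDegree < N) : b f g = ∑ j : Fin N, (∑ i : Fin N, f.coeff i * b (X ^ (i : ℕ))
      (X ^ (j : ℕ))) * g.coeff j := by
  have h1 : ∀ p : K[X], p.natDegree < N → p = ∑ i : Fin N, p.coeff i • (X : K[X]) ^ (i : ℕ) := by
    intro p hp
    conv_lhs => rw [p.as_sum_range_C_mul_X_pow' hp]
    rw [← Fin.sum_univ_eq_sum_range (fun i => C (p.coeff i) * X ^ i)]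
    apply Finset.sum_congr rfl
    intro i _
    rw [smul_eq_C_mul]
  conv_lhs => rw [h1 f hf, h1 g hg]
  rw [map_sum]
  apply Finset.sum_congr rfl
  intro j _
  rw [map_smul, map_sum, LinearMap.sum_apply, smul_eq_mul, mul_comm]
  congr 1
  apply Finset.sum_congr rfl
  intro i _
  rw [map_smul, LinearMap.smul_apply, smul_eq_mul]

theorem change [CharZero K] (a q : K) (b : K[X] →ₗ[K] K[X] →ₗ[K] K)
    (hb : ∀ f g, b f g = - b g f) (N : ℕ) :
    pf N (Matrix.of fun i j : Fin N => b (X ^ (i : ℕ)) (X ^ (j : ℕ))) =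
      pf N (blk (fun i j => b (U a q i) (U a q j)) N 0) := by
  have h := pf_gram (Matrix.of fun i j : Fin N => b (X ^ (i : ℕ)) (X ^ (j : ℕ)))
    (fun i j => hb _ _) (Matrix.of fun i j : Fin N => (U a q i).coeff j)
  have hdet : (Matrix.of fun i j : Fin N => (U a q i).coeff j).det = 1 := by
    rw [← Matrix.det_transpose]
    exact Matrix.det_matrixOfPolynomials (fun i : Fin N => U a q i)
      (fun i => (U_monic_natDegree a q i).2) (fun i => (U_monic_natDegree a q i).1)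
  rw [hdet, one_mul] at h
  rw [← h]
  congr 1
  ext i j
  rw [Matrix.mul_apply]
  simp only [blk, Matrix.mul_apply, Matrix.transpose_apply, Matrix.of_apply, zero_add]
  exact (bilin_expand b N _ _ (by rw [(U_monic_natDegree a q i).2]; exact i.2)
    (by rw [(U_monic_natDegree a q j).2]; exact j.2)).symm

/-- The product `∏ (1 - q^{2k+1}) h_{2k}`. -/
def Kn (a q : K) (n : ℕ) : K := ∏ k ∈ Finset.range n, (1 - q ^ (2 * k + 1)) * hn a q (2 * k)

theorem eval1 [CharZero K] (a : K) {q : K} (hq : ∀ m : ℕ, 0 < m → q ^ m ≠ 1) (n : ℕ) :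
    pf (2 * n) (Matrix.of fun i j : Fin (2 * n) =>
      (q ^ (i : ℕ) - q ^ (j : ℕ)) * G a q (i + j - 1)) = Kn a q n := by
  have h := change a q (b1 a q) (b1_skew a q) (2 * n)
  simp only [b1_X] at h
  rw [h, pf_band1]
  · apply Finset.prod_congr rfl
    intro k _
    simp only [zero_add]
    rw [b1_U a hq _ _ le_rfl, if_pos rfl]
  · intro i j hij
    obtain ⟨j, rfl⟩ : ∃ j', j = j' + 1 := ⟨j - 1, by omega⟩
    rw [b1_U a hq _ _ (by omega), if_neg (by omega)]

theorem eval2 [CharZero K] (a : K) {q : K} (hq0 : q ≠ 0) (hq : ∀ m : ℕ, 0 < m → q ^ m ≠ 1)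
    (n : ℕ) :
    pf (2 * n) (Matrix.of fun i j : Fin (2 * n) =>
      (q ^ (i : ℕ) - q ^ (j : ℕ)) * G a q (i + j)) = Kn a q n * S a q n := by
  have h := change a q (b2 a q) (b2_skew a q) (2 * n)
  simp only [b2_X] at h
  rw [h]
  clear h
  have hB : ∀ i j, i + 2 < j → (fun i j => b2 a q (U a q i) (U a q j)) i j = 0 := by
    intro i j hij
    obtain ⟨j, rfl⟩ : ∃ j', j = j' + 1 := ⟨j - 1, by omega⟩
    simp only
    rw [b2_U a hq _ _ (by omega), if_neg (by omega), if_neg (by omega), mul_zero]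
  have key : ∀ n, pf (2 * n) (blk (fun i j => b2 a q (U a q i) (U a q j)) (2 * n) 0) =
      Kn a q n * S a q n ∧
      pf (2 * (n + 1)) (blk (fun i j => b2 a q (U a q i) (U a q j)) (2 * (n + 1)) 0) =
      Kn a q (n + 1) * S a q (n + 1) := by
    intro n
    induction n with
    | zero =>
      constructor
      · simp [pf, Kn, S_zero]
      · have h1 := pf_band2_one (fun i j => b2 a q (U a q i) (U a q j)) 0
        rw [zero_add, h1]
        simp only [zero_add]
        have h2 := b2_U a hq 0 0 le_rfl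
        rw [zero_add] at h2
        rw [h2, if_pos rfl, S_one a hq]
        simp [Kn, hn]
    | succ n ih =>
      refine ⟨ih.2, ?_⟩
      have h1 := pf_band2_rec _ hB n
      have h2 : n + 1 + 1 = n + 2 := rfl
      rw [h2, h1, ih.1, ih.2]
      rw [b2_U a hq (2 * (n + 1)) _ le_rfl, if_pos rfl,
        show 2 * n + 2 = (2 * n + 1) + 1 from rfl, show 2 * n + 3 = (2 * n + 2) + 1 from rfl,
        b2_U a hq (2 * n) (2 * n + 1) (by omega), if_neg (by omega), if_pos rfl,
        b2_U a hq (2 * n + 1) (2 * n + 2) (by omega), if_neg (by omega), if_pos rfl,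
        S_rec a hq0 hq]
      have h3 : Kn a q (n + 1) = Kn a q n * ((1 - q ^ (2 * n + 1)) * hn a q (2 * n)) := by
        simp [Kn, Finset.prod_range_succ]
      have h4 : Kn a q (n + 2) = Kn a q (n + 1) *
          ((1 - q ^ (2 * n + 3)) * hn a q (2 * n + 2)) := by
        unfold Kn
        rw [Finset.prod_range_succ _ (n + 1)]
        congr 2
      have h5 : hn a q (2 * n + 1) = a * q ^ (2 * n) * (q ^ (2 * n + 1) - 1) * hn a q (2 * n) := rfl
      have h6 : 2 * (n + 1) = 2 * n + 2 := by ring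
      rw [h4, h3, h5, h6]
      ring
  exact (key n).1

theorem hn_even {a q : K} (hq0 : q ≠ 0) (k : ℕ) :
    hn a q (2 * k) = a ^ (2 * k) * q ^ ((k : ℤ) * (2 * k - 1)) * qPoch q (2 * k) := by
  induction k with
  | zero => simp [hn, qPoch_zero]
  | succ k ih =>
    have h1 : hn a q (2 * (k + 1)) = a * q ^ (2 * k + 1) * (q ^ (2 * k + 1 + 1) - 1) *
      (a * q ^ (2 * k) * (q ^ (2 * k + 1) - 1) * hn a q (2 * k)) := rfl
    have h2 : 2 * (k + 1) = 2 * k + 1 + 1 := rfl
    rw [h1, ih, h2, qPoch_succ, qPoch_succ]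
    have h3 : q ^ (((k + 1 : ℕ) : ℤ) * (2 * ((k + 1 : ℕ) : ℤ) - 1)) =
        q ^ ((k : ℤ) * (2 * k - 1)) * q ^ (4 * k + 1) := by
      rw [← zpow_natCast q (4 * k + 1), ← zpow_add₀ hq0]
      congr 1
      push_cast
      ring
    rw [h3]
    ring

/-- `∑_{k<n} k(2k-1)`. -/
def En (n : ℕ) : ℤ := ∑ k ∈ Finset.range n, (k : ℤ) * (2 * k - 1)

theorem Kn_eq {a q : K} (hq0 : q ≠ 0) (n : ℕ) :
    Kn a q n = a ^ (n * (n - 1)) * q ^ (En n) * ∏ k ∈ Finset.range n, qPoch q (2 * k + 1) := by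
  induction n with
  | zero => simp [Kn, En]
  | succ n ih =>
    have h1 : Kn a q (n + 1) = Kn a q n * ((1 - q ^ (2 * n + 1)) * hn a q (2 * n)) := by
      simp [Kn, Finset.prod_range_succ]
    have h2 : En (n + 1) = En n + (n : ℤ) * (2 * n - 1) := by simp [En, Finset.sum_range_succ]
    rw [h1, ih, hn_even hq0, h2, zpow_add₀ hq0, Finset.prod_range_succ, qPoch_succ,
      Nat.add_sub_cancel]
    have h3 : (n + 1) * n = n * (n - 1) + 2 * n := by
      rcases n with _ | n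
      · rfl
      · rw [Nat.add_sub_cancel]; ring
    rw [h3, pow_add]
    ring

/-- `e(n) = m(16m²-1)/3 - (-1)^n 4m²` with `m = ⌊n/2⌋` (the division is exact). -/
def e (n : ℕ) : ℤ :=
  (((n / 2 : ℕ) : ℤ) * (16 * ((n / 2 : ℕ) : ℤ) ^ 2 - 1)) / 3 - (-1) ^ n * (4 * ((n / 2 : ℕ) : ℤ) ^ 2)

theorem dvd3 (m : ℤ) : (3 : ℤ) ∣ m * (16 * m ^ 2 - 1) := by
  have h : m * (16 * m ^ 2 - 1) = 3 * (5 * m ^ 3) + (m ^ 3 - m) := by ring
  rw [h]
  apply dvd_add (dvd_mul_right _ _)
  have h2 : m % 3 = 0 ∨ m % 3 = 1 ∨ m % 3 = 2 := by omega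
  rcases h2 with h3 | h3 | h3
  · obtain ⟨t, rfl⟩ : ∃ t, m = 3 * t := ⟨m / 3, by omega⟩
    exact ⟨9 * t ^ 3 - t, by ring⟩
  · obtain ⟨t, rfl⟩ : ∃ t, m = 3 * t + 1 := ⟨m / 3, by omega⟩
    exact ⟨9 * t ^ 3 + 9 * t ^ 2 + 2 * t, by ring⟩
  · obtain ⟨t, rfl⟩ : ∃ t, m = 3 * t + 2 := ⟨m / 3, by omega⟩
    exact ⟨9 * t ^ 3 + 18 * t ^ 2 + 11 * t + 2, by ring⟩

theorem En_closed (n : ℕ) : 6 * En n = n * (n - 1) * (4 * n - 5) := by
  induction n with
  | zero => simp [En]
  | succ n ih =>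
    have h2 : En (n + 1) = En n + (n : ℤ) * (2 * n - 1) := by simp [En, Finset.sum_range_succ]
    rw [h2, mul_add, ih]
    push_cast
    ring

theorem e_eq (n : ℕ) (hn : 1 ≤ n) :
    e n - 2 * ((n / 2 : ℕ) : ℤ) * (((n - 1) / 2 : ℕ) : ℤ) = En n := by
  unfold e
  have h6 := En_closed n
  rcases Nat.even_or_odd' n with ⟨m, rfl | rfl⟩
  · have h1 : 2 * m / 2 = m := by omega
    have h2 : (((2 * m - 1) / 2 : ℕ) : ℤ) = (m : ℤ) - 1 := by omega
    obtain ⟨t, ht⟩ := dvd3 (m : ℤ)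
    rw [h1, h2, ht, Int.mul_ediv_cancel_left _ (by norm_num), pow_mul]
    push_cast at h6
    norm_num
    linarith [h6, ht]
  · have h1 : (2 * m + 1) / 2 = m := by omega
    have h2 : (2 * m + 1 - 1) / 2 = m := by omega
    obtain ⟨t, ht⟩ := dvd3 (m : ℤ)
    rw [h1, h2, ht, Int.mul_ediv_cancel_left _ (by norm_num), pow_succ, pow_mul]
    push_cast at h6
    norm_num
    linarith [h6, ht]

theorem c_eq (n k : ℕ) (hn : 1 ≤ n) :
    2 * ((n / 2 : ℕ) : ℤ) * (((n - 1) / 2 : ℕ) : ℤ) + ((n : ℤ) - 2 * k) ^ 2 / 2 =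
      (n : ℤ) * (n - 1) - 2 * k * (n - k) := by
  rcases Nat.even_or_odd' n with ⟨m, rfl | rfl⟩
  · have h1 : 2 * m / 2 = m := by omega
    have h2 : (((2 * m - 1) / 2 : ℕ) : ℤ) = (m : ℤ) - 1 := by omega
    have h3 : (((2 * m : ℕ) : ℤ) - 2 * k) ^ 2 = 2 * (2 * ((m : ℤ) - k) ^ 2) := by push_cast; ring
    rw [h1, h2, h3, Int.mul_ediv_cancel_left _ (by norm_num)]
    push_cast
    ring
  · have h1 : (2 * m + 1) / 2 = m := by omega
    have h2 : (2 * m + 1 - 1) / 2 = m := by omega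
    have h3 : (((2 * m + 1 : ℕ) : ℤ) - 2 * k) ^ 2 =
      1 + 2 * (2 * ((m : ℤ) - k) ^ 2 + 2 * (m - k)) := by push_cast; ring
    rw [h1, h2, h3, Int.add_mul_ediv_left _ _ (by norm_num)]
    norm_num
    ring

/-- The matrix of Q1 (indices from `0`). -/
def mat1 (a q : K) (n : ℕ) : Matrix (Fin (2 * n)) (Fin (2 * n)) K :=
  Matrix.of fun i j => (q ^ (i : ℕ) - q ^ (j : ℕ)) * G a q (i + j - 1)

/-- The matrix of Q2 (indices from `0`). -/
def mat2 (a q : K) (n : ℕ) : Matrix (Fin (2 * n)) (Fin (2 * n)) K :=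
  Matrix.of fun i j => (q ^ (i : ℕ) - q ^ (j : ℕ)) * G a q (i + j)

theorem Q1 [CharZero K] (a : K) {q : K} (hq0 : q ≠ 0) (hq : ∀ m : ℕ, 0 < m → q ^ m ≠ 1) (n : ℕ)
    (hn : 1 ≤ n) : Pf n (mat1 a q n) = a ^ (n * (n - 1)) *
      q ^ (e n - 2 * ((n / 2 : ℕ) : ℤ) * (((n - 1) / 2 : ℕ) : ℤ)) *
      ∏ k ∈ Finset.range n, qPoch q (2 * k + 1) := by
  rw [Pf_eq_pf, mat1, eval1 a hq, Kn_eq hq0, e_eq n hn]
  intro i j
  simp only [mat1, Matrix.of_apply]
  rw [add_comm (i : ℕ)]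
  ring

theorem Q2 [CharZero K] (a : K) {q : K} (hq0 : q ≠ 0) (hq : ∀ m : ℕ, 0 < m → q ^ m ≠ 1) (n : ℕ)
    (hn : 1 ≤ n) : Pf n (mat2 a q n) = a ^ (n * (n - 1)) * q ^ (e n) *
      (∏ k ∈ Finset.range n, qPoch q (2 * k + 1)) *
      ∑ k ∈ Finset.range (n + 1), q ^ (((n : ℤ) - 2 * k) ^ 2 / 2) * qBinom (q ^ 2) n k * a ^ k := by
  rw [Pf_eq_pf, mat2, eval2 a hq0 hq, Kn_eq hq0, ← e_eq n hn]
  · have h1 : S a q n = q ^ (2 * ((n / 2 : ℕ) : ℤ) * (((n - 1) / 2 : ℕ) : ℤ)) *
      ∑ k ∈ Finset.range (n + 1), q ^ (((n : ℤ) - 2 * k) ^ 2 / 2) * qBinom (q ^ 2) n k * a ^ k := by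
      rw [S, Finset.mul_sum]
      apply Finset.sum_congr rfl
      intro k hk
      rw [← c_eq n k hn, zpow_add₀ hq0, gb, if_pos (by have := Finset.mem_range.1 hk; omega)]
      ring
    rw [h1]
    have h2 : q ^ (e n) = q ^ (e n - 2 * ((n / 2 : ℕ) : ℤ) * (((n - 1) / 2 : ℕ) : ℤ)) *
        q ^ (2 * ((n / 2 : ℕ) : ℤ) * (((n - 1) / 2 : ℕ) : ℤ)) := by
      rw [← zpow_add₀ hq0]
      congr 1
      ring
    rw [h2]
    ring
  · intro i j
    simp only [mat2, Matrix.of_apply]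
    rw [add_comm (i : ℕ)]
    ring

end Pool.Agent.J6H11.ASC
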