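import Pool.Agent.Helper929.Pfaffian

set_option autoImplicit false

namespace Pool.Agent.J6H11.ASC

open Matrix Equiv

/-- The `(2k)`-th index. -/
def ev {n : ℕ} (k : Fin n) : Fin (2 * n) := ⟨2 * k.1, by have := k.2; omega⟩
/-- The `(2k+1)`-th index. -/
def od {n : ℕ} (k : Fin n) : Fin (2 * n) := ⟨2 * k.1 + 1, by have := k.2; omega⟩

/-- The Pfaffian of a `2n × 2n` matrix by the sum over all permutations:
`(1/(2^n n!)) ∑_σ sgn(σ) ∏_k A_{σ(2k),σ(2k+1)}` (indices from `0`). -/
noncomputable def Pf {K : Type*} [Field K] (n : ℕ) (A : Matrix (Fin (2 * n)) (Fin (2 * n)) K) : K :=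
  (1 / (2 ^ n * (n.factorial : K))) *
    ∑ σ : Perm (Fin (2 * n)), ((Perm.sign σ : ℤ) : K) * ∏ k : Fin n, A (σ (ev k)) (σ (od k))

section

variable {R : Type*} [CommRing R]

/-- The term of a permutation. -/
def T {n : ℕ} (A : Matrix (Fin (2 * n)) (Fin (2 * n)) R) (σ : Perm (Fin (2 * n))) : R :=
  ((Perm.sign σ : ℤ) : R) * ∏ k : Fin n, A (σ (ev k)) (σ (od k))

theorem ev_inj {n : ℕ} {a b : Fin n} : ev a = ev b ↔ a = b := by
  constructor
  · intro h
    have := congrArg Fin.val h
    simp [ev] at this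
    exact Fin.ext this
  · rintro rfl; rfl

theorem od_inj {n : ℕ} {a b : Fin n} : od a = od b ↔ a = b := by
  constructor
  · intro h
    have := congrArg Fin.val h
    simp [od] at this
    exact Fin.ext this
  · rintro rfl; rfl

theorem ev_ne_od {n : ℕ} (a b : Fin n) : ev a ≠ od b := by
  intro h
  have := congrArg Fin.val h
  simp [ev, od] at this
  omega

theorem T_swap_pair {n : ℕ} (A : Matrix (Fin (2 * n)) (Fin (2 * n)) R)
    (hA : ∀ i j, A i j = - A j i) (σ : Perm (Fin (2 * n))) (k : Fin n) :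
    T A (σ * swap (ev k) (od k)) = T A σ := by
  unfold T
  rw [Perm.sign_mul, Perm.sign_swap (ev_ne_od k k)]
  have h : ∏ k' : Fin n, A ((σ * swap (ev k) (od k)) (ev k')) ((σ * swap (ev k) (od k)) (od k'))
      = - ∏ k' : Fin n, A (σ (ev k')) (σ (od k')) := by
    rw [← Finset.mul_prod_erase Finset.univ _ (Finset.mem_univ k),
      ← Finset.mul_prod_erase Finset.univ (fun k' => A (σ (ev k')) (σ (od k'))) (Finset.mem_univ k)]
    rw [Perm.mul_apply, Perm.mul_apply, swap_apply_left, swap_apply_right, hA, neg_mul]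
    congr 2
    apply Finset.prod_congr rfl
    intro k' hk'
    have hne : k' ≠ k := (Finset.mem_erase.1 hk').1
    rw [Perm.mul_apply, Perm.mul_apply,
      swap_apply_of_ne_of_ne (fun h => hne (ev_inj.1 h)) (ev_ne_od _ _),
      swap_apply_of_ne_of_ne (fun h => (ev_ne_od _ _) h.symm) (fun h => hne (od_inj.1 h))]
  rw [h]
  push_cast
  ring

theorem T_swap_blocks {n : ℕ} (A : Matrix (Fin (2 * n)) (Fin (2 * n)) R)
    (σ : Perm (Fin (2 * n))) (k l : Fin n) :
    T A (σ * (swap (ev l) (ev k) * swap (od l) (od k))) = T A σ := by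
  unfold T
  have h1 : Perm.sign (swap (ev l) (ev k) * swap (od l) (od k)) = 1 := by
    rw [Perm.sign_mul]
    by_cases h : l = k
    · subst h; simp
    · rw [Perm.sign_swap (fun h' => h (ev_inj.1 h')), Perm.sign_swap (fun h' => h (od_inj.1 h'))]
      simp
  rw [Perm.sign_mul, h1, mul_one]
  congr 1
  have hev : ∀ k' : Fin n, (swap (ev l) (ev k) * swap (od l) (od k)) (ev k') = ev (swap l k k') := by
    intro k'
    rw [Perm.mul_apply, swap_apply_of_ne_of_ne (ev_ne_od _ _) (ev_ne_od _ _)]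
    by_cases h1 : k' = l
    · subst h1; rw [swap_apply_left, swap_apply_left]
    · by_cases h2 : k' = k
      · subst h2; rw [swap_apply_right, swap_apply_right]
      · rw [swap_apply_of_ne_of_ne (fun h => h1 (ev_inj.1 h)) (fun h => h2 (ev_inj.1 h)),
          swap_apply_of_ne_of_ne h1 h2]
  have hod : ∀ k' : Fin n, (swap (ev l) (ev k) * swap (od l) (od k)) (od k') = od (swap l k k') := by
    intro k'
    rw [Perm.mul_apply]
    by_cases h1 : k' = l
    · subst h1
      rw [swap_apply_left, swap_apply_left,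
        swap_apply_of_ne_of_ne (fun h => ev_ne_od _ _ h.symm) (fun h => ev_ne_od _ _ h.symm)]
    · by_cases h2 : k' = k
      · subst h2
        rw [swap_apply_right, swap_apply_right,
          swap_apply_of_ne_of_ne (fun h => ev_ne_od _ _ h.symm) (fun h => ev_ne_od _ _ h.symm)]
      · rw [swap_apply_of_ne_of_ne (fun h => h1 (od_inj.1 h)) (fun h => h2 (od_inj.1 h)),
          swap_apply_of_ne_of_ne h1 h2,
          swap_apply_of_ne_of_ne (fun h => ev_ne_od _ _ h.symm) (fun h => ev_ne_od _ _ h.symm)]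
  rw [← Equiv.prod_comp (swap l k) (fun k' => A (σ (ev k')) (σ (od k')))]
  apply Finset.prod_congr rfl
  intro k' _
  rw [Perm.mul_apply, Perm.mul_apply (f := σ), hev, hod]

/-- The sum over the permutations carrying a given position to `0` does not depend on it. -/
theorem sum_fiber {n : ℕ} (A : Matrix (Fin (2 * (n + 1))) (Fin (2 * (n + 1))) R)
    (hA : ∀ i j, A i j = - A j i) (p : Fin (2 * (n + 1))) :
    ∑ σ ∈ Finset.univ.filter (fun σ : Perm (Fin (2 * (n + 1))) => σ p = 0), T A σ =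
      ∑ σ ∈ Finset.univ.filter (fun σ : Perm (Fin (2 * (n + 1))) => σ 0 = 0), T A σ := by
  obtain ⟨τ, hτ0, hτ⟩ : ∃ τ : Perm (Fin (2 * (n + 1))), τ 0 = p ∧
      ∀ σ, T A (σ * τ) = T A σ := by
    have hz : (0 : Fin (2 * (n + 1))) = ev 0 := by
      apply Fin.ext; simp [ev]
    have hp := p.2
    have hb : ∀ k : Fin (n + 1), (swap (ev 0) (ev k) * swap (od 0) (od k)) 0 = ev k := by
      intro k
      rw [hz, Perm.mul_apply, swap_apply_of_ne_of_ne (ev_ne_od _ _) (ev_ne_od _ _), swap_apply_left]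
    rcases Nat.even_or_odd' p.1 with ⟨c, hc | hc⟩
    · have hc' : c < n + 1 := by omega
      refine ⟨swap (ev 0) (ev ⟨c, hc'⟩) * swap (od 0) (od ⟨c, hc'⟩), ?_, ?_⟩
      · rw [hb]
        apply Fin.ext; simp [ev, hc]
      · intro σ; exact T_swap_blocks A σ _ _
    · have hc' : c < n + 1 := by omega
      refine ⟨swap (ev ⟨c, hc'⟩) (od ⟨c, hc'⟩) *
        (swap (ev 0) (ev ⟨c, hc'⟩) * swap (od 0) (od ⟨c, hc'⟩)), ?_, ?_⟩
      · rw [Perm.mul_apply, hb, swap_apply_left]
        apply Fin.ext; simp [od, hc]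
      · intro σ
        rw [← mul_assoc, T_swap_blocks, T_swap_pair A hA]
  apply Finset.sum_nbij' (fun σ => σ * τ) (fun σ => σ * τ⁻¹)
  · intro σ hσ
    simp only [Finset.mem_filter, Finset.mem_univ, true_and] at hσ ⊢
    rw [Perm.mul_apply, hτ0, hσ]
  · intro σ hσ
    simp only [Finset.mem_filter, Finset.mem_univ, true_and] at hσ ⊢
    rw [Perm.mul_apply, Perm.inv_eq_iff_eq.2 hτ0.symm, hσ]
  · intro σ _; simp
  · intro σ _; simp
  · intro σ _; exact (hτ σ).symm

/-- Extension of a permutation of `Fin m` by a fixed point at `0`. -/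
def up {m : ℕ} (π : Perm (Fin m)) : Perm (Fin (m + 1)) := Perm.decomposeFin.symm (0, π)

theorem up_zero {m : ℕ} (π : Perm (Fin m)) : up π 0 = 0 := by
  simp [up]

theorem up_succ {m : ℕ} (π : Perm (Fin m)) (i : Fin m) : up π i.succ = (π i).succ := by
  simp [up]

theorem sign_up {m : ℕ} (π : Perm (Fin m)) : Perm.sign (up π) = Perm.sign π := by
  simp [up]

theorem sum_zero_fixed {m : ℕ} (F : Perm (Fin (m + 1)) → R) :
    ∑ σ ∈ Finset.univ.filter (fun σ : Perm (Fin (m + 1)) => σ 0 = 0), F σ =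
      ∑ π : Perm (Fin m), F (up π) := by
  rw [Finset.sum_filter, ← Equiv.sum_comp Perm.decomposeFin.symm, Fintype.sum_prod_type]
  simp only [Perm.decomposeFin_symm_apply_zero]
  rw [Finset.sum_eq_single 0]
  · simp [up]
  · intro b _ hb
    simp [hb]
  · simp

theorem bij_cycle {m : ℕ} : Function.Bijective
    (fun x : Fin (m + 1) × Perm (Fin m) => x.1.cycleRange⁻¹ * up x.2) := by
  rw [Fintype.bijective_iff_injective_and_card]
  constructor
  · rintro ⟨i, π⟩ ⟨j, ρ⟩ h
    simp only at h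
    have h0 := congrArg (fun f => f 0) h
    simp only [Perm.mul_apply, up_zero] at h0
    have hi : ∀ l : Fin (m + 1), (l.cycleRange⁻¹ : Perm (Fin (m + 1))) 0 = l := by
      intro l
      exact Fin.cycleRange_symm_zero l
    rw [hi, hi] at h0
    subst h0
    have h1 : up π = up ρ := mul_left_cancel h
    have h2 : ((0 : Fin (m + 1)), π) = ((0 : Fin (m + 1)), ρ) := Perm.decomposeFin.symm.injective h1
    have h3 : π = ρ := congrArg Prod.snd h2
    rw [h3]
  · rw [Fintype.card_prod, Fintype.card_perm, Fintype.card_perm, Fintype.card_fin, Fintype.card_fin,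
      Nat.factorial_succ]

theorem sum_cycle {m : ℕ} (F : Perm (Fin (m + 1)) → R) :
    ∑ σ : Perm (Fin (m + 1)), F σ =
      ∑ j : Fin (m + 1), ∑ π : Perm (Fin m), F (j.cycleRange⁻¹ * up π) := by
  rw [← bij_cycle.sum_comp, Fintype.sum_prod_type]

theorem sumT_step {n : ℕ} (A : Matrix (Fin (2 * (n + 1))) (Fin (2 * (n + 1))) R)
    (hA : ∀ i j, A i j = - A j i) :
    ∑ σ, T A σ = (2 * (n + 1) : R) * ∑ j : Fin (2 * n + 1), (-1) ^ (j : ℕ) *
      A (0 : Fin (2 * n + 2)) j.succ *
      ∑ π, T (n := n) (A.submatrix (fun k => (j.succAbove k).succ) (fun k => (j.succAbove k).succ)) π := by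
  have h1 : ∑ σ, T A σ = ∑ p : Fin (2 * (n + 1)),
      ∑ σ ∈ Finset.univ.filter (fun σ : Perm (Fin (2 * (n + 1))) => σ p = 0), T A σ := by
    rw [← Finset.sum_fiberwise_of_maps_to (s := Finset.univ) (t := Finset.univ)
      (g := fun σ : Perm (Fin (2 * (n + 1))) => σ⁻¹ 0) (fun _ _ => Finset.mem_univ _)]
    apply Finset.sum_congr rfl
    intro p _
    apply Finset.sum_congr _ (fun _ _ => rfl)
    ext σ
    simp only [Finset.mem_filter, Finset.mem_univ, true_and]
    rw [Perm.inv_eq_iff_eq]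
    exact eq_comm
  rw [h1, Finset.sum_congr rfl (fun p _ => sum_fiber A hA p), Finset.sum_const, Finset.card_univ,
    Fintype.card_fin, nsmul_eq_mul]
  push_cast
  congr 1
  refine (sum_zero_fixed (m := 2 * n + 1) (fun σ => T (n := n + 1) A σ)).trans ?_
  refine (sum_cycle (m := 2 * n) (fun σ => T (n := n + 1) A (up σ))).trans ?_
  apply Finset.sum_congr rfl
  intro j _
  rw [Finset.mul_sum]
  apply Finset.sum_congr rfl
  intro π _
  unfold T
  have hs : Perm.sign (up (j.cycleRange⁻¹ * up π)) = (-1) ^ (j : ℕ) * Perm.sign π := by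
    rw [sign_up, Perm.sign_mul, sign_up, Perm.sign_inv, Fin.sign_cycleRange]
  rw [hs]
  have hprod : ∏ k : Fin (n + 1), A ((up (j.cycleRange⁻¹ * up π)) (ev k))
      ((up (j.cycleRange⁻¹ * up π)) (od k)) = A (0 : Fin (2 * n + 2)) j.succ *
      ∏ k : Fin n, (A.submatrix (fun k => (j.succAbove k).succ) (fun k => (j.succAbove k).succ))
        (π (ev k)) (π (od k)) := by
    rw [Fin.prod_univ_succ]
    have e0 : (ev (0 : Fin (n + 1)) : Fin (2 * n + 2)) = 0 := by apply Fin.ext; simp [ev]
    have o0 : (od (0 : Fin (n + 1)) : Fin (2 * n + 2)) = (0 : Fin (2 * n + 1)).succ := by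
      apply Fin.ext; simp [od]
    have e1 : ∀ k : Fin n, (ev k.succ : Fin (2 * n + 2)) = (ev k).succ.succ := by
      intro k; apply Fin.ext; simp [ev]; omega
    have o1 : ∀ k : Fin n, (od k.succ : Fin (2 * n + 2)) = (od k).succ.succ := by
      intro k; apply Fin.ext; simp [od]; omega
    have hs1 : ∀ x : Fin (2 * n), (up (j.cycleRange⁻¹ * up π)) x.succ.succ =
        (j.succAbove (π x)).succ := by
      intro x
      rw [up_succ, Perm.mul_apply, up_succ]
      congr 1
      exact Fin.cycleRange_symm_succ j (π x)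
    have hs0 : (up (j.cycleRange⁻¹ * up π)) (0 : Fin (2 * n + 1)).succ = j.succ := by
      rw [up_succ, Perm.mul_apply, up_zero]
      congr 1
      exact Fin.cycleRange_symm_zero j
    congr 1
    · rw [e0, o0]
      congr 1
    · apply Finset.prod_congr rfl
      intro k _
      rw [e1, o1, Matrix.submatrix_apply]
      congr 1
      · exact hs1 _
      · exact hs1 _
  rw [hprod]
  push_cast
  ring

end

open Pool.Agent.Helper929 in
theorem Pf_eq_pf {K : Type*} [Field K] [CharZero K] : ∀ (n : ℕ)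
    (A : Matrix (Fin (2 * n)) (Fin (2 * n)) K) (_ : ∀ i j, A i j = - A j i),
    Pf n A = pf (2 * n) A
  | 0, A, _ => by
    simp [Pf, pf]
  | (n + 1), A, hA => by
    have h := sumT_step A hA
    have h2 : pf (2 * (n + 1)) A = ∑ j : Fin (2 * n + 1), (-1) ^ (j : ℕ) *
      A (0 : Fin (2 * n + 2)) j.succ *
      pf (2 * n) (A.submatrix (fun k => (j.succAbove k).succ) (fun k => (j.succAbove k).succ)) := rfl
    have h3 : Pf (n + 1) A = (1 / (2 ^ (n + 1) * ((n + 1).factorial : K))) * ∑ σ, T A σ := rfl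
    rw [h3, h, h2]
    have h4 : ∀ j : Fin (2 * n + 1),
        pf (2 * n) (A.submatrix (fun k => (j.succAbove k).succ) (fun k => (j.succAbove k).succ)) =
        (1 / (2 ^ n * (n.factorial : K))) *
        ∑ π, T (n := n) (A.submatrix (fun k => (j.succAbove k).succ)
          (fun k => (j.succAbove k).succ)) π := by
      intro j
      exact (Pf_eq_pf n (A.submatrix (fun k => (j.succAbove k).succ)
        (fun k => (j.succAbove k).succ)) (fun a b => hA _ _)).symm
    simp_rw [h4]
    rw [Finset.mul_sum, Finset.mul_sum]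
    apply Finset.sum_congr rfl
    intro j _
    have h5 : (n.factorial : K) ≠ 0 := by exact_mod_cast Nat.factorial_ne_zero n
    have h6 : ((n : K) + 1) ≠ 0 := by exact_mod_cast Nat.succ_ne_zero n
    rw [Nat.factorial_succ]
    push_cast
    field_simp
    ring

end Pool.Agent.J6H11.ASC
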