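import Pool.Agent.J6H11.ASC.QBin
import Pool.Agent.J6H11.ASC.Band
import Pool.Agent.J6H11.ASC.PfSum

set_option autoImplicit false

namespace Pool.Agent.J6H11.ASC

open Polynomial Matrix Pool.Agent.Helper929

variable {K : Type*} [Field K]

/-- The moment functional. -/
noncomputable def L (a q : K) : K[X] →ₗ[K] K :=
  (Polynomial.basisMonomials K).constr K (fun r => G a q r)

/-- The `q`-difference operator `f ↦ (f(qX) - f(X))/X`. -/
noncomputable def D (q : K) : K[X] →ₗ[K] K[X] :=
  (Polynomial.basisMonomials K).constr K (fun r => (q ^ r - 1) • (X : K[X]) ^ (r - 1))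

theorem L_X (a q : K) (r : ℕ) : L a q (X ^ r) = G a q r := by
  have h := (Polynomial.basisMonomials K).constr_basis K (fun r => G a q r) r
  rw [Polynomial.coe_basisMonomials] at h
  rw [← Polynomial.monomial_one_right_eq_X_pow]
  exact h

theorem D_X (q : K) (r : ℕ) : D q (X ^ r) = (q ^ r - 1) • X ^ (r - 1) := by
  have h := (Polynomial.basisMonomials K).constr_basis K
    (fun r => (q ^ r - 1) • (X : K[X]) ^ (r - 1)) r
  rw [Polynomial.coe_basisMonomials] at h
  rw [← Polynomial.monomial_one_right_eq_X_pow]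
  exact h

theorem L_one (a q : K) : L a q 1 = 1 := by
  have h := L_X a q 0
  rw [pow_zero, G_zero] at h
  exact h

theorem D_one (q : K) : D q 1 = 0 := by
  have h := D_X q 0
  simpa using h

theorem L_smul (a q c : K) (f : K[X]) : L a q (C c * f) = c * L a q f := by
  rw [← smul_eq_C_mul, map_smul, smul_eq_mul]

theorem D_smul (q c : K) (f : K[X]) : D q (C c * f) = C c * D q f := by
  rw [← smul_eq_C_mul, map_smul, smul_eq_C_mul]

theorem D_X_mul (q : K) (f : K[X]) : D q (X * f) = C q * (X * D q f) + C (q - 1) * f := by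
  induction f using Polynomial.induction_on' with
  | add f g hf hg => rw [mul_add, map_add, hf, hg, map_add]; ring
  | monomial n c =>
    rw [← C_mul_X_pow_eq_monomial]
    have h1 : X * (C c * X ^ n) = C c * (X : K[X]) ^ (n + 1) := by ring
    rw [h1, D_smul, D_smul, D_X, D_X, Nat.add_sub_cancel, smul_eq_C_mul, smul_eq_C_mul]
    rcases n with _ | n
    · simp
      ring
    · rw [Nat.add_sub_cancel]
      simp only [map_sub, map_pow, map_one]
      ring

theorem L_X_mul (a : K) {q : K} (hq : ∀ m : ℕ, 0 < m → q ^ m ≠ 1) (f : K[X]) :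
    L a q (X * f) = (1 + a) * L a q f + a * L a q (D q f) := by
  induction f using Polynomial.induction_on' with
  | add f g hf hg => rw [mul_add, map_add, hf, hg, map_add, map_add, map_add]; ring
  | monomial n c =>
    rw [← C_mul_X_pow_eq_monomial]
    have h1 : X * (C c * X ^ n) = C c * (X : K[X]) ^ (n + 1) := by ring
    rw [h1, L_smul, L_smul, D_smul, L_smul, D_X, map_smul, L_X, L_X, L_X, smul_eq_mul]
    rcases n with _ | n
    · rw [G_one a hq, G_zero]
      simp
      ring
    · rw [Nat.add_sub_cancel, G_rec a hq]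
      ring

/-- The Al-Salam–Carlitz polynomials. -/
noncomputable def U (a q : K) : ℕ → K[X]
  | 0 => 1
  | 1 => X - C (1 + a)
  | (n + 2) => (X - C ((1 + a) * q ^ (n + 1))) * U a q (n + 1) +
      C (a * q ^ n * (1 - q ^ (n + 1))) * U a q n

theorem U_zero (a q : K) : U a q 0 = 1 := rfl
theorem U_one (a q : K) : U a q 1 = X - C (1 + a) := rfl
theorem U_succ (a q : K) (n : ℕ) : U a q (n + 2) = (X - C ((1 + a) * q ^ (n + 1))) * U a q (n + 1) +
      C (a * q ^ n * (1 - q ^ (n + 1))) * U a q n := rfl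

theorem X_U_zero (a q : K) : X * U a q 0 = U a q 1 + C (1 + a) * U a q 0 := by
  rw [U_zero, U_one]; ring

theorem X_U_succ (a q : K) (n : ℕ) : X * U a q (n + 1) = U a q (n + 2) +
    C ((1 + a) * q ^ (n + 1)) * U a q (n + 1) - C (a * q ^ n * (1 - q ^ (n + 1))) * U a q n := by
  rw [U_succ]; ring

theorem D_U_zero (a q : K) : D q (U a q 0) = 0 := by rw [U_zero, D_one]

theorem D_U_one (a q : K) : D q (U a q 1) = C (q - 1) * U a q 0 := by
  have h1 : (X : K[X]) - C (1 + a) = X ^ 1 - C (1 + a) * 1 := by ring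
  rw [U_one, h1, map_sub, D_smul, D_one, D_X, U_zero, smul_eq_C_mul]
  simp

theorem D_U_succ (a q : K) : ∀ n : ℕ, D q (U a q (n + 1)) = C (q ^ (n + 1) - 1) * U a q n
  | 0 => by rw [D_U_one]; simp
  | 1 => by
    rw [U_succ]
    have h1 : (X - C ((1 + a) * q ^ (0 + 1))) * U a q (0 + 1) +
      C (a * q ^ 0 * (1 - q ^ (0 + 1))) * U a q 0 = X * U a q 1 - C ((1 + a) * q ^ (0 + 1)) * U a q 1
        + C (a * q ^ 0 * (1 - q ^ (0 + 1))) * U a q 0 := by ring
    rw [h1, map_add, map_sub, D_X_mul, D_smul, D_smul, D_U_zero, D_U_one, U_zero, U_one]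
    simp only [map_sub, map_pow, map_one, map_mul, map_add]
    ring
  | (n + 2) => by
    have ih1 := D_U_succ a q (n + 1)
    have ih2 := D_U_succ a q n
    rw [U_succ]
    have h1 : (X - C ((1 + a) * q ^ (n + 1 + 1))) * U a q (n + 1 + 1) +
      C (a * q ^ (n + 1) * (1 - q ^ (n + 1 + 1))) * U a q (n + 1) =
        X * U a q (n + 1 + 1) - C ((1 + a) * q ^ (n + 1 + 1)) * U a q (n + 1 + 1)
        + C (a * q ^ (n + 1) * (1 - q ^ (n + 1 + 1))) * U a q (n + 1) := by ring
    rw [h1, map_add, map_sub, D_X_mul, D_smul, D_smul, ih1, ih2]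
    have h2 := X_U_succ a q n
    have h3 : X * (C (q ^ (n + 1 + 1) - 1) * U a q (n + 1)) =
      C (q ^ (n + 1 + 1) - 1) * (U a q (n + 2) +
    C ((1 + a) * q ^ (n + 1)) * U a q (n + 1) - C (a * q ^ n * (1 - q ^ (n + 1))) * U a q n) := by
      rw [← h2]; ring
    rw [h3]
    simp only [map_sub, map_pow, map_one, map_mul, map_add]
    ring

theorem L_mul_U (a : K) {q : K} (hq : ∀ m : ℕ, 0 < m → q ^ m ≠ 1) : ∀ (n : ℕ) (f : K[X]),
    L a q (f * U a q (n + 1)) = a * q ^ n * L a q (D q f * U a q n)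
  | 0, f => by
    have h1 : f * U a q (0 + 1) = X * f - C (1 + a) * f := by
      rw [zero_add, U_one]; ring
    rw [h1, map_sub, L_smul, L_X_mul a hq, U_zero]
    ring_nf
  | 1, f => by
    have ih := L_mul_U a hq 0
    simp only [zero_add, pow_zero, mul_one, U_zero] at ih
    have h1 : f * U a q (1 + 1) = (X * f) * U a q 1 - C ((1 + a) * q) * (f * U a q 1) +
        C (a * (1 - q)) * (f * 1) := by
      have := U_succ a q 0
      simp only [zero_add, pow_one, pow_zero, mul_one, U_zero] at this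
      show f * U a q 2 = _
      rw [this]; ring
    rw [h1, map_add, map_sub, ih, L_smul, L_smul, ih, D_X_mul, map_add, L_smul, L_smul,
      L_X_mul a hq, mul_one]
    have h2 : L a q (D q f * U a q 1) = a * L a q (D q (D q f)) := ih (D q f)
    rw [h2]
    ring
  | (n + 2), f => by
    have ih1 := L_mul_U a hq (n + 1)
    have ih2 := L_mul_U a hq n
    have h1 : f * U a q (n + 2 + 1) = (X * f) * U a q (n + 1 + 1) -
        C ((1 + a) * q ^ (n + 2)) * (f * U a q (n + 1 + 1)) +
        C (a * q ^ (n + 1) * (1 - q ^ (n + 2))) * (f * U a q (n + 1)) := by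
      have := U_succ a q (n + 1)
      show f * U a q (n + 1 + 2) = _
      rw [this]; ring
    have h2 : (C q * (X * D q f) + C (q - 1) * f) * U a q (n + 1) =
        C q * (D q f * U a q (n + 2)) +
        C (q * ((1 + a) * q ^ (n + 1))) * (D q f * U a q (n + 1)) -
        C (q * (a * q ^ n * (1 - q ^ (n + 1)))) * (D q f * U a q n) +
        C (q - 1) * (f * U a q (n + 1)) := by
      have := X_U_succ a q n
      have h3 : (C q * (X * D q f) + C (q - 1) * f) * U a q (n + 1) =
        C q * D q f * (X * U a q (n + 1)) + C (q - 1) * (f * U a q (n + 1)) := by ring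
      rw [h3, this]
      simp only [map_mul]
      ring
    rw [h1, map_add, map_sub, L_smul, L_smul, ih1, ih1, D_X_mul, h2, map_add, map_sub, map_add,
      L_smul, L_smul, L_smul, L_smul, ih2 f]
    ring

/-- Norms. -/
def hn (a q : K) : ℕ → K
  | 0 => 1
  | (n + 1) => a * q ^ n * (q ^ (n + 1) - 1) * hn a q n

theorem orth (a : K) {q : K} (hq : ∀ m : ℕ, 0 < m → q ^ m ≠ 1) : ∀ (m n : ℕ),
    L a q (U a q m * U a q n) = if m = n then hn a q n else 0
  | 0, 0 => by simp [U_zero, hn, L_one]
  | 0, (n + 1) => by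
    rw [L_mul_U a hq, D_U_zero]
    simp
  | (m + 1), 0 => by
    rw [mul_comm, L_mul_U a hq, D_U_zero]
    simp
  | (m + 1), (n + 1) => by
    rw [L_mul_U a hq, D_U_succ, mul_assoc (C _), L_smul, orth a hq m n]
    by_cases h : m = n
    · subst h
      simp only [if_true, hn]
      ring
    · rw [if_neg h, if_neg (by omega)]
      ring

theorem U_monic_natDegree (a q : K) : ∀ n : ℕ, (U a q n).Monic ∧ (U a q n).natDegree = n
  | 0 => by simp [U_zero]
  | 1 => by
    rw [U_one]
    exact ⟨monic_X_sub_C _, natDegree_X_sub_C _⟩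
  | (n + 2) => by
    obtain ⟨m1, d1⟩ := U_monic_natDegree a q (n + 1)
    obtain ⟨m0, d0⟩ := U_monic_natDegree a q n
    have hm : ((X - C ((1 + a) * q ^ (n + 1))) * U a q (n + 1)).Monic := (monic_X_sub_C _).mul m1
    have hd : ((X - C ((1 + a) * q ^ (n + 1))) * U a q (n + 1)).natDegree = n + 2 := by
      rw [(monic_X_sub_C _).natDegree_mul m1, natDegree_X_sub_C, d1]; ring
    have hlt : (C (a * q ^ n * (1 - q ^ (n + 1))) * U a q n).degree <
        ((X - C ((1 + a) * q ^ (n + 1))) * U a q (n + 1)).degree := by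
      rw [degree_eq_natDegree hm.ne_zero, hd]
      rw [← smul_eq_C_mul]
      refine lt_of_le_of_lt (degree_smul_le _ _) ?_
      rw [degree_eq_natDegree m0.ne_zero, d0]
      exact_mod_cast (by omega : n < n + 2)
    rw [U_succ]
    refine ⟨hm.add_of_left hlt, ?_⟩
    rw [natDegree_add_eq_left_of_degree_lt hlt, hd]

end Pool.Agent.J6H11.ASC
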