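import Mathlib

set_option autoImplicit false

namespace Pool.Agent.J6H11.ASC

variable {K : Type*} [Field K]

/-- `(q;q)_m = ∏_{i=1}^m (1 - q^i)`. -/
def qPoch (q : K) (m : ℕ) : K := ∏ i ∈ Finset.range m, (1 - q ^ (i + 1))

/-- The Gaussian binomial `(q;q)_m / ((q;q)_k (q;q)_{m-k})` (for `0 ≤ k ≤ m`). -/
def qBinom (q : K) (m k : ℕ) : K := qPoch q m / (qPoch q k * qPoch q (m - k))

/-- `G_r(a;q) = ∑_{j=0}^r [r, j]_q a^j`. -/
def G (a q : K) (r : ℕ) : K := ∑ j ∈ Finset.range (r + 1), qBinom q r j * a ^ j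

/-- Gaussian binomial extended by zero. -/
def gb (q : K) (m k : ℕ) : K := if k ≤ m then qBinom q m k else 0

theorem qPoch_zero (q : K) : qPoch q 0 = 1 := by simp [qPoch]

theorem qPoch_succ (q : K) (m : ℕ) : qPoch q (m + 1) = qPoch q m * (1 - q ^ (m + 1)) := by
  simp [qPoch, Finset.prod_range_succ]

section

variable {q : K} (hq : ∀ m : ℕ, 0 < m → q ^ m ≠ 1)

include hq

theorem one_sub_ne (m : ℕ) : 1 - q ^ (m + 1) ≠ 0 := by
  intro h
  exact hq (m + 1) (Nat.succ_pos m) (sub_eq_zero.1 h).symm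

theorem qPoch_ne (m : ℕ) : qPoch q m ≠ 0 :=
  Finset.prod_ne_zero_iff.2 fun i _ => one_sub_ne hq i

theorem gb_zero (n : ℕ) : gb q n 0 = 1 := by
  have := qPoch_ne hq n
  simp [gb, qBinom, qPoch_zero, this]

/-- Common form of three neighbouring Gaussian binomials. -/
theorem gb_X {n k : ℕ} (h : k ≤ n) : ∃ X : K, gb q n k = X * (1 - q ^ (k + 1)) ∧
    gb q n (k + 1) = X * (1 - q ^ (n - k)) ∧ gb q (n + 1) (k + 1) = X * (1 - q ^ (n + 1)) := by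
  have h1 := qPoch_ne hq k
  have h2 := qPoch_ne hq (n - k)
  have h3 := one_sub_ne hq k
  refine ⟨qPoch q n / (qPoch q (k + 1) * qPoch q (n - k)), ?_, ?_, ?_⟩
  · rw [gb, if_pos h, qBinom, qPoch_succ]
    field_simp
  · rw [gb]
    by_cases hk : k + 1 ≤ n
    · rw [if_pos hk, qBinom, qPoch_succ]
      obtain ⟨d, hd⟩ : ∃ d, n - k = d + 1 := ⟨n - k - 1, by omega⟩
      have hd' : n - (k + 1) = d := by omega
      rw [hd, hd', qPoch_succ]
      have h4 := qPoch_ne hq d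
      have h5 := one_sub_ne hq d
      field_simp
    · rw [if_neg hk]
      have : n - k = 0 := by omega
      rw [this]
      simp
  · rw [gb, if_pos (by omega), qBinom, qPoch_succ, qPoch_succ]
    have : n + 1 - (k + 1) = n - k := by omega
    rw [this]
    field_simp

theorem gb_pascal {n k : ℕ} (h : k ≤ n) :
    gb q (n + 1) (k + 1) = gb q n k + q ^ (k + 1) * gb q n (k + 1) := by
  obtain ⟨X, h1, h2, h3⟩ := gb_X hq h
  rw [h1, h2, h3]
  have : q ^ (n + 1) = q ^ (k + 1) * q ^ (n - k) := by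
    rw [← pow_add]; congr 1; omega
  rw [this]
  ring

theorem gb_pascal' {n k : ℕ} (h : k ≤ n) :
    gb q (n + 1) (k + 1) = gb q n (k + 1) + q ^ (n - k) * gb q n k := by
  obtain ⟨X, h1, h2, h3⟩ := gb_X hq h
  rw [h1, h2, h3]
  have : q ^ (n + 1) = q ^ (k + 1) * q ^ (n - k) := by
    rw [← pow_add]; congr 1; omega
  rw [this]
  ring

theorem gb_absorb {n k : ℕ} (h : k ≤ n + 1) :
    (1 - q ^ (n + 1 - k)) * gb q (n + 1) k = (1 - q ^ (n + 1)) * gb q n k := by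
  rcases k with _ | k
  · rw [gb_zero hq, gb_zero hq, Nat.sub_zero]
  · obtain ⟨X, h1, h2, h3⟩ := gb_X hq (show k ≤ n by omega)
    rw [h2, h3]
    have : n + 1 - (k + 1) = n - k := by omega
    rw [this]
    ring

omit hq in
theorem gb_of_lt {n k : ℕ} (h : n < k) : gb q n k = 0 := by
  rw [gb, if_neg (by omega)]

end

theorem G_eq (a q : K) (r : ℕ) : G a q r = ∑ j ∈ Finset.range (r + 1), gb q r j * a ^ j := by
  unfold G
  apply Finset.sum_congr rfl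
  intro j hj
  rw [gb, if_pos (by have := Finset.mem_range.1 hj; omega)]

theorem G_eq' (a q : K) (r N : ℕ) (h : r + 1 ≤ N) :
    G a q r = ∑ j ∈ Finset.range N, gb q r j * a ^ j := by
  rw [G_eq]
  apply Finset.sum_subset
  · intro x hx
    rw [Finset.mem_range] at hx ⊢
    omega
  · intro x _ hx
    rw [Finset.mem_range] at hx
    rw [gb_of_lt (by omega), zero_mul]

theorem G_zero (a q : K) : G a q 0 = 1 := by
  simp [G, qBinom, qPoch_zero]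

theorem G_one (a : K) {q : K} (hq : ∀ m : ℕ, 0 < m → q ^ m ≠ 1) : G a q 1 = 1 + a := by
  have h := one_sub_ne hq 0
  simp only [zero_add] at h
  simp [G, qBinom, Finset.sum_range_succ, qPoch]
  rw [div_self (by simpa using h)]
  ring

theorem G_rec (a : K) {q : K} (hq : ∀ m : ℕ, 0 < m → q ^ m ≠ 1) (r : ℕ) :
    G a q (r + 2) = (1 + a) * G a q (r + 1) - a * (1 - q ^ (r + 1)) * G a q r := by
  rw [G_eq a q (r + 2), Finset.sum_range_succ', add_mul, one_mul]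
  nth_rewrite 1 [G_eq' a q (r + 1) (r + 3) (by omega)]
  rw [G_eq' a q (r + 1) (r + 2) (by omega), G_eq' a q r (r + 2) (by omega),
    Finset.sum_range_succ' (fun j => gb q (r + 1) j * a ^ j)]
  rw [gb_zero hq, gb_zero hq, Finset.mul_sum, Finset.mul_sum]
  have h : ∑ k ∈ Finset.range (r + 2), gb q (r + 2) (k + 1) * a ^ (k + 1) =
      ∑ k ∈ Finset.range (r + 2), gb q (r + 1) (k + 1) * a ^ (k + 1) +
      ∑ i ∈ Finset.range (r + 2), a * (gb q (r + 1) i * a ^ i) -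
      ∑ i ∈ Finset.range (r + 2), a * (1 - q ^ (r + 1)) * (gb q r i * a ^ i) := by
    rw [← Finset.sum_add_distrib, ← Finset.sum_sub_distrib]
    apply Finset.sum_congr rfl
    intro k hk
    have hk' : k ≤ r + 1 := by have := Finset.mem_range.1 hk; omega
    rw [gb_pascal' hq hk']
    have h2 := gb_absorb hq hk'
    linear_combination a ^ (k + 1) * (-h2)
  rw [h]
  ring

/-- The sum of the second evaluation. -/
def S (a q : K) (n : ℕ) : K := ∑ k ∈ Finset.range (n + 1),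
  q ^ (((n : ℤ) * (n - 1) - 2 * k * (n - k))) * gb (q ^ 2) n k * a ^ k

theorem S_zero (a q : K) : S a q 0 = 1 := by
  simp [S, gb, qBinom, qPoch_zero]

theorem S_eq' (a q : K) (n N : ℕ) (h : n + 1 ≤ N) : S a q n = ∑ k ∈ Finset.range N,
    q ^ (((n : ℤ) * (n - 1) - 2 * k * (n - k))) * gb (q ^ 2) n k * a ^ k := by
  unfold S
  apply Finset.sum_subset
  · intro x hx
    rw [Finset.mem_range] at hx ⊢
    omega
  · intro x _ hx
    rw [Finset.mem_range] at hx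
    rw [gb_of_lt (by omega)]
    ring

theorem S_one (a : K) {q : K} (hq : ∀ m : ℕ, 0 < m → q ^ m ≠ 1) : S a q 1 = 1 + a := by
  have hq2 : ∀ m : ℕ, 0 < m → (q ^ 2) ^ m ≠ 1 := by
    intro m hm
    rw [← pow_mul]
    exact hq _ (by omega)
  have h := qPoch_ne hq2 1
  simp [S, gb, qBinom, Finset.sum_range_succ, qPoch_zero, h]

theorem S_rec (a : K) {q : K} (hq0 : q ≠ 0) (hq : ∀ m : ℕ, 0 < m → q ^ m ≠ 1) (n : ℕ) :
    S a q (n + 2) = (1 + a) * q ^ (2 * n + 2) * S a q (n + 1) +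
      a * q ^ (2 * n) * (1 - q ^ (2 * n + 2)) * S a q n := by
  have hq2 : ∀ m : ℕ, 0 < m → (q ^ 2) ^ m ≠ 1 := by
    intro m hm
    rw [← pow_mul]
    exact hq _ (by omega)
  have e0 : S a q (n + 2) = ∑ k ∈ Finset.range (n + 2),
      q ^ ((((n + 2 : ℕ) : ℤ) * (((n + 2 : ℕ) : ℤ) - 1) - 2 * ((k + 1 : ℕ) : ℤ) *
        (((n + 2 : ℕ) : ℤ) - ((k + 1 : ℕ) : ℤ)))) * gb (q ^ 2) (n + 2) (k + 1) * a ^ (k + 1) +
      q ^ ((n + 2 : ℤ) * (n + 1)) := by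
    unfold S
    rw [Finset.sum_range_succ', gb_zero hq2]
    congr 1
    push_cast
    simp
    ring_nf
  have e1 : S a q (n + 1) = ∑ k ∈ Finset.range (n + 2),
      q ^ ((((n + 1 : ℕ) : ℤ) * (((n + 1 : ℕ) : ℤ) - 1) - 2 * ((k + 1 : ℕ) : ℤ) *
        (((n + 1 : ℕ) : ℤ) - ((k + 1 : ℕ) : ℤ)))) * gb (q ^ 2) (n + 1) (k + 1) * a ^ (k + 1) +
      q ^ ((n + 1 : ℤ) * n) := by
    rw [S_eq' a q (n + 1) (n + 3) (by omega)]
    rw [Finset.sum_range_succ', gb_zero hq2]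
    congr 1
    push_cast
    simp
  have e2 : S a q (n + 1) = ∑ k ∈ Finset.range (n + 2),
      q ^ ((((n + 1 : ℕ) : ℤ) * (((n + 1 : ℕ) : ℤ) - 1) - 2 * (k : ℤ) *
        (((n + 1 : ℕ) : ℤ) - (k : ℤ)))) * gb (q ^ 2) (n + 1) k * a ^ k := rfl
  have e3 : S a q n = ∑ k ∈ Finset.range (n + 2),
      q ^ (((n : ℤ) * ((n : ℤ) - 1) - 2 * (k : ℤ) *
        ((n : ℤ) - (k : ℤ)))) * gb (q ^ 2) n k * a ^ k := S_eq' a q n (n + 2) (by omega)
  rw [add_mul, add_mul, one_mul]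
  nth_rewrite 1 [e1]
  rw [e0, e2, e3, mul_add (q ^ (2 * n + 2)), Finset.mul_sum, Finset.mul_sum, Finset.mul_sum]
  have h0 : q ^ (2 * n + 2) * q ^ ((n + 1 : ℤ) * n) = q ^ ((n + 2 : ℤ) * (n + 1)) := by
    rw [← zpow_natCast, ← zpow_add₀ hq0]
    congr 1
    push_cast
    ring
  rw [h0]
  have key : ∀ k ∈ Finset.range (n + 2),
      q ^ ((((n + 2 : ℕ) : ℤ) * (((n + 2 : ℕ) : ℤ) - 1) - 2 * ((k + 1 : ℕ) : ℤ) *
        (((n + 2 : ℕ) : ℤ) - ((k + 1 : ℕ) : ℤ)))) * gb (q ^ 2) (n + 2) (k + 1) * a ^ (k + 1) =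
      q ^ (2 * n + 2) * (q ^ ((((n + 1 : ℕ) : ℤ) * (((n + 1 : ℕ) : ℤ) - 1) - 2 * ((k + 1 : ℕ) : ℤ) *
        (((n + 1 : ℕ) : ℤ) - ((k + 1 : ℕ) : ℤ)))) * gb (q ^ 2) (n + 1) (k + 1) * a ^ (k + 1)) +
      a * q ^ (2 * n + 2) * (q ^ ((((n + 1 : ℕ) : ℤ) * (((n + 1 : ℕ) : ℤ) - 1) - 2 * (k : ℤ) *
        (((n + 1 : ℕ) : ℤ) - (k : ℤ)))) * gb (q ^ 2) (n + 1) k * a ^ k) +
      a * q ^ (2 * n) * (1 - q ^ (2 * n + 2)) * (q ^ (((n : ℤ) * ((n : ℤ) - 1) - 2 * (k : ℤ) *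
        ((n : ℤ) - (k : ℤ)))) * gb (q ^ 2) n k * a ^ k) := by
    intro k hk
    have hk' : k ≤ n + 1 := by have := Finset.mem_range.1 hk; omega
    set Z := q ^ ((((n + 2 : ℕ) : ℤ) * (((n + 2 : ℕ) : ℤ) - 1) - 2 * ((k + 1 : ℕ) : ℤ) *
        (((n + 2 : ℕ) : ℤ) - ((k + 1 : ℕ) : ℤ)))) with hZ
    have z1 : q ^ (2 * n + 2) * q ^ ((((n + 1 : ℕ) : ℤ) * (((n + 1 : ℕ) : ℤ) - 1) -
        2 * ((k + 1 : ℕ) : ℤ) * (((n + 1 : ℕ) : ℤ) - ((k + 1 : ℕ) : ℤ)))) =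
        Z * (q ^ 2) ^ (k + 1) := by
      rw [hZ, ← pow_mul, ← zpow_natCast, ← zpow_natCast q (2 * (k + 1)), ← zpow_add₀ hq0,
        ← zpow_add₀ hq0]
      congr 1
      push_cast
      ring
    have z2 : q ^ (2 * n + 2) * q ^ ((((n + 1 : ℕ) : ℤ) * (((n + 1 : ℕ) : ℤ) - 1) -
        2 * (k : ℤ) * (((n + 1 : ℕ) : ℤ) - (k : ℤ)))) =
        Z * (q ^ 2) ^ (n + 1 - k) := by
      rw [hZ, ← pow_mul, ← zpow_natCast, ← zpow_natCast q (2 * (n + 1 - k)), ← zpow_add₀ hq0,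
        ← zpow_add₀ hq0]
      congr 1
      push_cast [Nat.cast_sub hk']
      ring
    have z3 : q ^ (2 * n) * q ^ (((n : ℤ) * ((n : ℤ) - 1) - 2 * (k : ℤ) *
        ((n : ℤ) - (k : ℤ)))) = Z := by
      rw [hZ, ← zpow_natCast, ← zpow_add₀ hq0]
      congr 1
      push_cast
      ring
    have p1 := gb_pascal hq2 hk'
    have p2 := gb_absorb hq2 hk'
    have p3 : q ^ (2 * n + 2) = (q ^ 2) ^ (n + 1) := by
      rw [← pow_mul]; congr 1
    rw [p1]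
    calc Z * (gb (q ^ 2) (n + 1) k + (q ^ 2) ^ (k + 1) * gb (q ^ 2) (n + 1) (k + 1)) * a ^ (k + 1)
        = (Z * (q ^ 2) ^ (k + 1)) * gb (q ^ 2) (n + 1) (k + 1) * a ^ (k + 1) +
          a * (Z * (q ^ 2) ^ (n + 1 - k)) * gb (q ^ 2) (n + 1) k * a ^ k +
          a * Z * ((1 - (q ^ 2) ^ (n + 1 - k)) * gb (q ^ 2) (n + 1) k) * a ^ k := by ring
      _ = _ := by
          rw [p2, ← z1, ← z2, ← p3]
          linear_combination (-(a * ((1 - q ^ (2 * n + 2)) * gb (q ^ 2) n k) * a ^ k)) * z3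
  rw [Finset.sum_congr rfl key, Finset.sum_add_distrib, Finset.sum_add_distrib]
  ring

end Pool.Agent.J6H11.ASC
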